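import Pool.Agent.Results.MP_66fdf3_co.CommutatorEven

set_option autoImplicit false

namespace Pool.Agent.Results.MP_66fdf3_co.NormalSubgroups

open Pool.Agent.Results.MP_66fdf3_co.CommutatorEven

/-- The Cayley table of `G` has an orthogonal mate: a latin square `M` such that the superposition
of the Cayley table and `M` has no repeated ordered pair. -/
def HasOrthogonalMate (G : Type*) [Group G] : Prop :=
  ∃ M : G → G → G, IsLatin M ∧ Function.Injective fun p : G × G => (p.1 * p.2, M p.1 p.2)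

/-! ### The extension theorem -/

section Ext

variable {G K : Type*} [Group G] [Group K] (N : Subgroup G) [N.Normal] (φ : K →* G)

open Classical in
/-- Representatives of the cosets of `N`; the representative of `N` is `1`. -/
noncomputable def rep (q : G ⧸ N) : G := if q = 1 then 1 else q.out

theorem rep_one : rep N 1 = 1 := if_pos rfl

theorem mk_rep (q : G ⧸ N) : ((rep N q : G) : G ⧸ N) = q := by
  unfold rep
  split_ifs with h
  · rw [h]; rfl
  · exact QuotientGroup.out_eq' q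

variable {N φ}

theorem exists_left (hφ : ∀ g, g ∈ N ↔ ∃ a, φ a = g) (g : G) :
    ∃ a, rep N (g : G ⧸ N) * φ a = g := by
  have h : (rep N (g : G ⧸ N))⁻¹ * g ∈ N := QuotientGroup.eq.1 (mk_rep N _)
  obtain ⟨a, ha⟩ := (hφ _).1 h
  exact ⟨a, by rw [ha]; group⟩

theorem exists_right (hφ : ∀ g, g ∈ N ↔ ∃ a, φ a = g) (g : G) :
    ∃ a, φ a * rep N (g : G ⧸ N) = g := by
  have h : (rep N (g : G ⧸ N))⁻¹ * g ∈ N := QuotientGroup.eq.1 (mk_rep N _)
  have h' : g * (rep N (g : G ⧸ N))⁻¹ ∈ N := Subgroup.Normal.mem_comm inferInstance h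
  obtain ⟨a, ha⟩ := (hφ _).1 h'
  exact ⟨a, by rw [ha]; group⟩

theorem mk_phi (hφ : ∀ g, g ∈ N ↔ ∃ a, φ a = g) (a : K) : ((φ a : G) : G ⧸ N) = 1 :=
  (QuotientGroup.eq_one_iff _).2 ((hφ _).2 ⟨a, rfl⟩)

/-- The data of the construction. -/
structure Data (N : Subgroup G) [N.Normal] (φ : K →* G) where
  /-- mate of the quotient -/
  Mq : G ⧸ N → G ⧸ N → G ⧸ N
  /-- mates of the blocks -/
  m : G ⧸ N → G ⧸ N → K → K → K
  /-- left coordinate -/
  α : G → K
  /-- right coordinate -/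
  β : G → K
  hφ : ∀ g : G, g ∈ N ↔ ∃ a, φ a = g
  inj : Function.Injective φ
  latQ : IsLatin Mq
  orthQ : Function.Injective fun p : (G ⧸ N) × (G ⧸ N) => (p.1 * p.2, Mq p.1 p.2)
  oneQ : Mq 1 1 = 1
  latm : ∀ x y, IsLatin (m x y)
  hα : ∀ g : G, rep N (g : G ⧸ N) * φ (α g) = g
  hβ : ∀ g : G, φ (β g) * rep N (g : G ⧸ N) = g

namespace Data

/-- The mate. -/
noncomputable def L (D : Data N φ) (g h : G) : G :=
  rep N (D.Mq g h) * φ (D.m g h (D.α g) (D.β h))

theorem mk_left (D : Data N φ) (x : G ⧸ N) (a : K) : ((rep N x * φ a : G) : G ⧸ N) = x := by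
  rw [QuotientGroup.mk_mul, mk_rep, mk_phi D.hφ, mul_one]

theorem mk_right (D : Data N φ) (x : G ⧸ N) (a : K) : ((φ a * rep N x : G) : G ⧸ N) = x := by
  rw [QuotientGroup.mk_mul, mk_rep, mk_phi D.hφ, one_mul]

theorem α_left (D : Data N φ) (x : G ⧸ N) (a : K) : D.α (rep N x * φ a) = a := by
  have h := D.hα (rep N x * φ a)
  rw [D.mk_left] at h
  exact D.inj (mul_left_cancel h)

theorem β_right (D : Data N φ) (x : G ⧸ N) (a : K) : D.β (φ a * rep N x) = a := by
  have h := D.hβ (φ a * rep N x)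
  rw [D.mk_right] at h
  exact D.inj (mul_right_cancel h)

theorem mk_L (D : Data N φ) (g h : G) : ((D.L g h : G) : G ⧸ N) = D.Mq g h := D.mk_left _ _

theorem L_apply (D : Data N φ) (x y : G ⧸ N) (a b : K) :
    D.L (rep N x * φ a) (φ b * rep N y) = rep N (D.Mq x y) * φ (D.m x y a b) := by
  unfold L
  rw [D.mk_left, D.mk_right, D.α_left, D.β_right]

theorem mul_apply (x y : G ⧸ N) (a b : K) :
    (rep N x * φ a) * (φ b * rep N y) = rep N x * φ (a * b) * rep N y := by
  rw [map_mul]; group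

theorem latin (D : Data N φ) [Finite G] : IsLatin D.L := by
  constructor
  · intro r
    refine Finite.injective_iff_bijective.1 fun h h' e => ?_
    have e1 : D.Mq r h = D.Mq r h' := by rw [← mk_L, ← mk_L, e]
    have e2 : (h : G ⧸ N) = h' := (D.latQ.1 _).1 e1
    unfold L at e
    rw [e2] at e
    have e3 := D.inj (mul_left_cancel e)
    have e4 := ((D.latm _ _).1 _).1 e3
    rw [← D.hβ h, ← D.hβ h', e4, e2]
  · intro c
    refine Finite.injective_iff_bijective.1 fun h h' e => ?_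
    change D.L h c = D.L h' c at e
    have e1 : D.Mq h c = D.Mq h' c := by rw [← mk_L, ← mk_L, e]
    have e2 : (h : G ⧸ N) = h' := (D.latQ.2 _).1 e1
    unfold L at e
    rw [e2] at e
    have e3 := D.inj (mul_left_cancel e)
    have e4 := ((D.latm _ _).2 _).1 e3
    rw [← D.hα h, ← D.hα h', e4, e2]

/-- Orthogonality in all blocks gives orthogonality. -/
theorem orth (D : Data N φ) (h : ∀ x y, Function.Injective fun p : K × K => (p.1 * p.2, D.m x y p.1 p.2)) :
    Function.Injective fun p : G × G => (p.1 * p.2, D.L p.1 p.2) := by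
  rintro ⟨g, k⟩ ⟨g', k'⟩ e
  simp only [Prod.mk.injEq] at e
  obtain ⟨e1, e2⟩ := e
  have e3 : ((g : G ⧸ N), (k : G ⧸ N)) = ((g' : G ⧸ N), (k' : G ⧸ N)) := by
    apply D.orthQ
    simp only [Prod.mk.injEq]
    exact ⟨by rw [← QuotientGroup.mk_mul, e1, QuotientGroup.mk_mul], by rw [← mk_L, ← mk_L, e2]⟩
  simp only [Prod.mk.injEq] at e3
  obtain ⟨e4, e5⟩ := e3
  have hg := D.hα g
  have hg' := D.hα g'
  have hk := D.hβ k
  have hk' := D.hβ k'
  rw [← e4] at hg'
  rw [← e5] at hk'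
  generalize (g : G ⧸ N) = x at *
  generalize (k : G ⧸ N) = y at *
  generalize D.α g = a at *
  generalize D.α g' = a' at *
  generalize D.β k = b at *
  generalize D.β k' = b' at *
  subst hg
  subst hg'
  subst hk
  subst hk'
  rw [mul_apply, mul_apply] at e1
  rw [D.L_apply, D.L_apply] at e2
  have e6 := D.inj (mul_left_cancel (mul_right_cancel e1))
  have e7 := D.inj (mul_left_cancel e2)
  have e8 := h x y (a₁ := (a, b)) (a₂ := (a', b')) (by simp only [e6, e7])
  simp only [Prod.mk.injEq] at e8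
  rw [e8.1, e8.2]

theorem surjQ (D : Data N φ) [Finite G] (u v : G ⧸ N) : ∃ x y, x * y = u ∧ D.Mq x y = v := by
  obtain ⟨⟨x, y⟩, h⟩ := (Finite.injective_iff_surjective.1 D.orthQ) (u, v)
  simp only [Prod.mk.injEq] at h
  exact ⟨x, y, h⟩

/-- The missing pairs of the superposition. -/
theorem compl_range (D : Data N φ) [Finite G] [Finite K]
    (h : ∀ x y, ¬(x = 1 ∧ y = 1) →
      Function.Injective fun p : K × K => (p.1 * p.2, D.m x y p.1 p.2)) :
    (Set.range fun p : G × G => (p.1 * p.2, D.L p.1 p.2))ᶜ =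
      (fun p : K × K => (φ p.1, φ p.2)) ''
        (Set.range fun p : K × K => (p.1 * p.2, D.m 1 1 p.1 p.2))ᶜ := by
  ext ⟨u, v⟩
  simp only [Set.mem_compl_iff, Set.mem_range, Set.mem_image, Prod.mk.injEq, Prod.exists,
    not_exists, not_and]
  constructor
  · intro hn
    obtain ⟨x, y, hx, hy⟩ := D.surjQ u v
    obtain ⟨n₂, hn₂⟩ := exists_left D.hφ v
    rw [← hy] at hn₂
    have hu : (rep N x)⁻¹ * u * (rep N y)⁻¹ ∈ N := by
      rw [← QuotientGroup.eq_one_iff, QuotientGroup.mk_mul, QuotientGroup.mk_mul,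
        QuotientGroup.mk_inv, QuotientGroup.mk_inv, mk_rep, mk_rep, ← hx]
      group
    obtain ⟨n₁, hn₁⟩ := (D.hφ _).1 hu
    have hn₁' : rep N x * φ n₁ * rep N y = u := by rw [hn₁]; group
    have key : ∀ a b, a * b = n₁ → D.m x y a b ≠ n₂ := by
      intro a b h1 h2
      refine hn (rep N x * φ a) (φ b * rep N y) ?_ ?_
      · rw [mul_apply, h1, hn₁']
      · rw [D.L_apply, h2, hn₂]
    have hxy : x = 1 ∧ y = 1 := by
      by_contra hc
      obtain ⟨⟨a, b⟩, hab⟩ := (Finite.injective_iff_surjective.1 (h x y hc)) (n₁, n₂)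
      simp only [Prod.mk.injEq] at hab
      exact key a b hab.1 hab.2
    obtain ⟨rfl, rfl⟩ := hxy
    refine ⟨n₁, n₂, key, ?_, ?_⟩
    · rw [← hn₁', rep_one, one_mul, mul_one]
    · rw [← hn₂, D.oneQ, rep_one, one_mul]
  · rintro ⟨n₁, n₂, hn, rfl, rfl⟩ g k h1 h2
    have e3 : ((g : G ⧸ N), (k : G ⧸ N)) = ((1 : G ⧸ N), (1 : G ⧸ N)) := by
      apply D.orthQ
      simp only [Prod.mk.injEq]
      refine ⟨?_, ?_⟩
      · rw [← QuotientGroup.mk_mul, h1, mk_phi D.hφ, one_mul]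
      · rw [← mk_L, h2, mk_phi D.hφ, D.oneQ]
    simp only [Prod.mk.injEq] at e3
    have hg := D.hα g
    have hk := D.hβ k
    rw [e3.1] at hg
    rw [e3.2] at hk
    rw [← hg, ← hk, mul_apply, rep_one, one_mul, mul_one] at h1
    rw [← hg, ← hk, D.L_apply, D.oneQ, rep_one, one_mul] at h2
    exact hn _ _ (D.inj h1) (D.inj h2)

end Data

end Ext

/-- The extension theorem, for an arbitrary copy `K` of the normal subgroup `N`. -/
theorem extension {G K : Type*} [Group G] [Finite G] [Group K] [Finite K] (N : Subgroup G)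
    [N.Normal] (φ : K →* G) (inj : Function.Injective φ) (hφ : ∀ g, g ∈ N ↔ ∃ a, φ a = g)
    (hK : HasOrthogonalMate K) (hQ : HasOrthogonalMate (G ⧸ N)) :
    HasOrthogonalMate G ∧ (HasNearOrthogonalMate K → HasNearOrthogonalMate G) := by
  classical
  obtain ⟨m, latm, orthm⟩ := hK
  obtain ⟨Mq', latQ', orthQ'⟩ := hQ
  choose α hα using exists_left hφ
  choose β hβ using exists_right hφ
  let Mq : G ⧸ N → G ⧸ N → G ⧸ N := fun x y => (Mq' 1 1)⁻¹ * Mq' x y
  have latQ : IsLatin Mq := ⟨fun r => (Group.mulLeft_bijective _).comp (latQ'.1 r),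
    fun c => (Group.mulLeft_bijective _).comp (latQ'.2 c)⟩
  have orthQ : Function.Injective fun p : (G ⧸ N) × (G ⧸ N) => (p.1 * p.2, Mq p.1 p.2) := by
    intro p q h
    simp only [Mq, Prod.mk.injEq] at h
    exact orthQ' (by simp only [Prod.mk.injEq]; exact ⟨h.1, mul_left_cancel h.2⟩)
  have oneQ : Mq 1 1 = 1 := inv_mul_cancel _
  refine ⟨?_, ?_⟩
  · let D : Data N φ := ⟨Mq, fun _ _ => m, α, β, hφ, inj, latQ, orthQ, oneQ, fun _ _ => latm, hα, hβ⟩
    exact ⟨D.L, D.latin, D.orth fun _ _ => orthm⟩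
  · rintro ⟨m', latm', ⟨r₁, r₂, c₁, c₂, ⟨hr, hc, i1, i2⟩, ⟨-, -, j1, j2⟩, hs⟩, hcard⟩
    let mm : G ⧸ N → G ⧸ N → K → K → K := fun x y => if x = 1 ∧ y = 1 then m' else m
    have mm1 : mm 1 1 = m' := if_pos ⟨rfl, rfl⟩
    have latmm : ∀ x y, IsLatin (mm x y) := by
      intro x y
      simp only [mm]
      split_ifs
      · exact latm'
      · exact latm
    let D : Data N φ := ⟨Mq, mm, α, β, hφ, inj, latQ, orthQ, oneQ, latmm, hα, hβ⟩
    have hDm : D.m 1 1 = m' := mm1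
    have hL : ∀ a b, D.L (φ a) (φ b) = φ (m' a b) := by
      intro a b
      have := D.L_apply 1 1 a b
      rw [rep_one, one_mul, mul_one] at this
      rw [this, D.oneQ, rep_one, one_mul, hDm]
    refine ⟨D.L, D.latin, ⟨φ r₁, φ r₂, φ c₁, φ c₂, ⟨inj.ne hr, inj.ne hc, ?_, ?_⟩,
      ⟨inj.ne hr, inj.ne hc, ?_, ?_⟩, ?_⟩, ?_⟩
    · simp only at i1 ⊢
      rw [← map_mul, ← map_mul, i1]
    · simp only at i2 ⊢
      rw [← map_mul, ← map_mul, i2]
    · rw [hL, hL, j1]
    · rw [hL, hL, j2]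
    · have hs' := congrArg (Set.image φ) hs
      simp only [Set.image_pair, map_mul] at hs'
      simp only [hL]
      exact hs'
    · have hN : Nontrivial K := ⟨r₁, r₂, hr⟩
      have hK2 : 2 ≤ Nat.card K := Finite.one_lt_card
      have h1 := D.compl_range (fun x y hxy => by
        change Function.Injective fun p : K × K => (p.1 * p.2, mm x y p.1 p.2)
        simp only [mm, if_neg hxy]
        exact orthm)
      have h2 : (Set.range fun p : K × K => (p.1 * p.2, m' p.1 p.2))ᶜ.ncard = 2 := by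
        rw [Set.ncard_compl, hcard, Nat.card_prod]
        have : 2 ≤ Nat.card K ^ 2 := by nlinarith
        rw [← pow_two]
        omega
      have h3 : ((Set.range fun p : G × G => (p.1 * p.2, D.L p.1 p.2))ᶜ).ncard = 2 := by
        rw [h1, hDm, Set.ncard_image_of_injective _ (fun p q h => ?_), h2]
        simp only [Prod.mk.injEq] at h
        exact Prod.ext (inj h.1) (inj h.2)
      have h4 := Set.ncard_add_ncard_compl (Set.range fun p : G × G => (p.1 * p.2, D.L p.1 p.2))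
      rw [h3, Nat.card_prod, ← pow_two] at h4
      change (Set.range fun p : G × G => (p.1 * p.2, D.L p.1 p.2)).ncard = _
      omega

/-! ### The two non-abelian groups of order eight -/

theorem near_of_table {K : Type*} [Group K] [Fintype K] [DecidableEq K] (M : K → K → K)
    (h1 : ∀ r a b, M r a = M r b → a = b) (h2 : ∀ c a b, M a c = M b c → a = b)
    (r₁ r₂ c₁ c₂ : K)
    (h3 : r₁ ≠ r₂ ∧ c₁ ≠ c₂ ∧ r₁ * c₁ = r₂ * c₂ ∧ r₁ * c₂ = r₂ * c₁ ∧ M r₁ c₁ = M r₂ c₂ ∧
      M r₁ c₂ = M r₂ c₁ ∧ r₁ * c₁ = M r₁ c₁ ∧ r₁ * c₂ = M r₁ c₂)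
    (h4 : (Finset.univ.image fun p : K × K => (p.1 * p.2, M p.1 p.2)).card =
      Fintype.card K ^ 2 - 2) : HasNearOrthogonalMate K := by
  obtain ⟨a1, a2, a3, a4, a5, a6, a7, a8⟩ := h3
  refine ⟨M, ⟨fun r => Finite.injective_iff_bijective.1 fun a b h => h1 r a b h,
    fun c => Finite.injective_iff_bijective.1 fun a b h => h2 c a b h⟩,
    ⟨r₁, r₂, c₁, c₂, ⟨a1, a2, a3, a4⟩, ⟨a1, a2, a5, a6⟩, ?_⟩, ?_⟩
  · simp only [a7, a8]
  · rw [Nat.card_eq_fintype_card, ← h4, ← Set.ncard_coe_finset, Finset.coe_image,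
      Finset.coe_univ, Set.image_univ]

theorem orth_of_table {K : Type*} [Group K] [Fintype K] (M : K → K → K)
    (h1 : ∀ r a b, M r a = M r b → a = b) (h2 : ∀ c a b, M a c = M b c → a = b)
    (h3 : ∀ a b c d : K, a * b = c * d → M a b = M c d → a = c ∧ b = d) :
    HasOrthogonalMate K := by
  refine ⟨M, ⟨fun r => Finite.injective_iff_bijective.1 fun a b h => h1 r a b h,
    fun c => Finite.injective_iff_bijective.1 fun a b h => h2 c a b h⟩, ?_⟩
  rintro ⟨a, b⟩ ⟨c, d⟩ h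
  simp only [Prod.mk.injEq] at h
  obtain ⟨e1, e2⟩ := h3 a b c d h.1 h.2
  rw [e1, e2]

/-- residue class of a number modulo four -/
def toZ (n : ℕ) : Fin 4 := ⟨n % 4, Nat.mod_lt _ (by decide)⟩

/-- number of an element of the dihedral group of order eight -/
def idD : DihedralGroup 4 → ℕ
  | .r i => (show Fin 4 from i).val
  | .sr i => 4 + (show Fin 4 from i).val

/-- element of the dihedral group of order eight with a given number -/
def deD (n : ℕ) : DihedralGroup 4 :=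
  if n < 4 then .r (show ZMod 4 from toZ n) else .sr (show ZMod 4 from toZ n)

/-- number of an element of the quaternion group -/
def idQ : QuaternionGroup 2 → ℕ
  | .a i => (show Fin 4 from i).val
  | .xa i => 4 + (show Fin 4 from i).val

/-- element of the quaternion group with a given number -/
def deQ (n : ℕ) : QuaternionGroup 2 :=
  if n < 4 then .a (show ZMod 4 from toZ n) else .xa (show ZMod 4 from toZ n)

/-- near-orthogonal mate of the dihedral group of order eight -/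
def tabDn : List ℕ :=
  [0, 1, 2, 5, 6, 4, 3, 7, 3, 6, 1, 7, 0, 2, 5, 4, 2, 4, 0, 6, 1, 5, 7, 3, 7, 3, 5, 4, 2, 0,
   6, 1, 4, 0, 6, 3, 5, 7, 1, 2, 6, 7, 4, 0, 3, 1, 2, 5, 5, 2, 3, 1, 7, 6, 4, 0, 1, 5, 7, 2, 4,
   3, 0, 6]

/-- orthogonal mate of the dihedral group of order eight -/
def tabDo : List ℕ :=
  [0, 2, 5, 6, 1, 4, 7, 3, 7, 3, 1, 4, 0, 5, 2, 6, 4, 7, 3, 1, 2, 6, 0, 5, 5, 6, 0, 2, 3, 1,
   4, 7, 2, 1, 4, 7, 5, 3, 6, 0, 6, 0, 2, 3, 4, 7, 5, 1, 3, 5, 6, 0, 7, 2, 1, 4, 1, 4, 7, 5, 6,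
   0, 3, 2]

/-- near-orthogonal mate of the quaternion group -/
def tabQn : List ℕ :=
  [0, 1, 2, 4, 3, 5, 6, 7, 6, 4, 5, 3, 0, 2, 7, 1, 2, 6, 0, 7, 4, 1, 5, 3, 7, 5, 3, 1, 2, 0,
   4, 6, 4, 0, 7, 5, 6, 3, 1, 2, 1, 3, 6, 0, 5, 7, 2, 4, 5, 2, 1, 6, 7, 4, 3, 0, 3, 7, 4, 2, 1,
   6, 0, 5]

/-- orthogonal mate of the quaternion group -/
def tabQo : List ℕ :=
  [0, 4, 1, 5, 6, 3, 7, 2, 6, 3, 2, 7, 0, 1, 4, 5, 7, 1, 4, 2, 3, 5, 0, 6, 3, 5, 0, 6, 2, 4,
   1, 7, 5, 7, 6, 3, 4, 0, 2, 1, 1, 0, 7, 4, 5, 2, 6, 3, 2, 6, 3, 0, 1, 7, 5, 4, 4, 2, 5, 1, 7,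
   6, 3, 0]

/-- square on the dihedral group of order eight given by a table -/
def sqD (T : List ℕ) (a b : DihedralGroup 4) : DihedralGroup 4 :=
  deD (T.getD (8 * idD a + idD b) 0)

/-- square on the quaternion group given by a table -/
def sqQ (T : List ℕ) (a b : QuaternionGroup 2) : QuaternionGroup 2 :=
  deQ (T.getD (8 * idQ a + idQ b) 0)

theorem near_D : HasNearOrthogonalMate (DihedralGroup 4) :=
  near_of_table (sqD tabDn) (by decide +kernel) (by decide +kernel) (deD 0) (deD 2) (deD 0)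
    (deD 2) (by decide +kernel) (by decide +kernel)

theorem orth_D : HasOrthogonalMate (DihedralGroup 4) :=
  orth_of_table (sqD tabDo) (by decide +kernel) (by decide +kernel) (by decide +kernel)

theorem near_Q : HasNearOrthogonalMate (QuaternionGroup 2) :=
  near_of_table (sqQ tabQn) (by decide +kernel) (by decide +kernel) (deQ 0) (deQ 2) (deQ 0)
    (deQ 2) (by decide +kernel) (by decide +kernel)

theorem orth_Q : HasOrthogonalMate (QuaternionGroup 2) :=
  orth_of_table (sqQ tabQo) (by decide +kernel) (by decide +kernel) (by decide +kernel)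

/-! ### The alternating group of degree four -/

theorem orth_of_map {K : Type*} [Group K] [Finite K] (θ : K → K) (h1 : ∀ a b, θ a = θ b → a = b)
    (h2 : ∀ a b, a * θ a = b * θ b → a = b) : HasOrthogonalMate K := by
  have hb : Function.Bijective θ := Finite.injective_iff_bijective.1 fun a b h => h1 a b h
  refine ⟨fun a b => (θ a)⁻¹ * b, ⟨fun r => Group.mulLeft_bijective _, fun c => ?_⟩, ?_⟩
  · exact (Group.mulRight_bijective c).comp ((Equiv.inv K).bijective.comp hb)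
  · rintro ⟨a, b⟩ ⟨c, d⟩ h
    simp only [Prod.mk.injEq] at h
    obtain ⟨e1, e2⟩ := h
    have e3 : a * θ a = c * θ c := by
      have x1 : (a * b) * ((θ a)⁻¹ * b)⁻¹ = a * θ a := by group
      have x2 : (c * d) * ((θ c)⁻¹ * d)⁻¹ = c * θ c := by group
      rw [← x1, ← x2, e1, e2]
    have e4 := h2 _ _ e3
    subst e4
    rw [mul_left_cancel e1]

theorem memA {a b c d : Fin 4} (h : a ≠ b) (h' : c ≠ d) :
    Equiv.swap a b * Equiv.swap c d ∈ alternatingGroup (Fin 4) := by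
  rw [Equiv.Perm.mem_alternatingGroup, map_mul, Equiv.Perm.sign_swap h, Equiv.Perm.sign_swap h']
  decide

/-- the elements of the alternating group; the element number `4 i + j` maps `0` to `i` and `1`
to `j` (the identity for `i = j`) -/
def elA : List (alternatingGroup (Fin 4)) :=
  [⟨Equiv.swap 0 1 * Equiv.swap 0 1, memA (by decide) (by decide)⟩,
   ⟨Equiv.swap 0 1 * Equiv.swap 0 1, memA (by decide) (by decide)⟩,
   ⟨Equiv.swap 1 2 * Equiv.swap 2 3, memA (by decide) (by decide)⟩,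
   ⟨Equiv.swap 1 2 * Equiv.swap 1 3, memA (by decide) (by decide)⟩,
   ⟨Equiv.swap 0 1 * Equiv.swap 2 3, memA (by decide) (by decide)⟩,
   ⟨Equiv.swap 0 1 * Equiv.swap 0 1, memA (by decide) (by decide)⟩,
   ⟨Equiv.swap 0 1 * Equiv.swap 1 2, memA (by decide) (by decide)⟩,
   ⟨Equiv.swap 0 1 * Equiv.swap 1 3, memA (by decide) (by decide)⟩,
   ⟨Equiv.swap 0 1 * Equiv.swap 0 2, memA (by decide) (by decide)⟩,
   ⟨Equiv.swap 0 2 * Equiv.swap 2 3, memA (by decide) (by decide)⟩,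
   ⟨Equiv.swap 0 1 * Equiv.swap 0 1, memA (by decide) (by decide)⟩,
   ⟨Equiv.swap 0 2 * Equiv.swap 1 3, memA (by decide) (by decide)⟩,
   ⟨Equiv.swap 0 1 * Equiv.swap 0 3, memA (by decide) (by decide)⟩,
   ⟨Equiv.swap 0 2 * Equiv.swap 0 3, memA (by decide) (by decide)⟩,
   ⟨Equiv.swap 0 3 * Equiv.swap 1 2, memA (by decide) (by decide)⟩,
   ⟨Equiv.swap 0 1 * Equiv.swap 0 1, memA (by decide) (by decide)⟩]

/-- number of an element of the alternating group -/
def idA (σ : alternatingGroup (Fin 4)) : ℕ := 4 * (σ.1 0).val + (σ.1 1).val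

/-- near-orthogonal mate of the alternating group -/
def tabAn : List ℕ :=
  [0, 0, 0, 0, 0, 0, 0, 0, 0, 0, 0, 0, 0, 0, 0, 0, 0, 1, 7, 6, 4, 0, 11, 2, 8, 9, 0, 12, 13,
   3, 14, 0, 0, 11, 1, 13, 3, 0, 4, 12, 7, 6, 0, 9, 2, 14, 8, 0, 0, 12, 8, 1, 9, 0, 13, 4, 11,
   3, 0, 2, 14, 6, 7, 0, 0, 4, 6, 9, 1, 0, 14, 3, 2, 8, 0, 7, 11, 12, 13, 0, 0, 0, 0, 0, 0, 0,
   0, 0, 0, 0, 0, 0, 0, 0, 0, 0, 0, 3, 14, 4, 6, 0, 1, 9, 12, 2, 0, 8, 7, 13, 11, 0, 0, 7, 13,
   3, 8, 0, 2, 1, 4, 14, 0, 6, 9, 11, 12, 0, 0, 9, 2, 8, 14, 0, 7, 13, 6, 12, 0, 11, 3, 4, 1,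
   0, 0, 13, 11, 7, 12, 0, 9, 8, 1, 4, 0, 14, 6, 2, 3, 0, 0, 0, 0, 0, 0, 0, 0, 0, 0, 0, 0, 0,
   0, 0, 0, 0, 0, 2, 4, 14, 11, 0, 12, 6, 13, 7, 0, 3, 8, 1, 9, 0, 0, 6, 9, 11, 2, 0, 8, 14, 3,
   13, 0, 1, 12, 7, 4, 0, 0, 14, 3, 12, 13, 0, 6, 7, 9, 11, 0, 4, 1, 8, 2, 0, 0, 8, 12, 2, 7,
   0, 3, 11, 14, 1, 0, 13, 4, 9, 6, 0, 0, 0, 0, 0, 0, 0, 0, 0, 0, 0, 0, 0, 0, 0, 0, 0]

/-- a complete mapping of the alternating group -/
def tabAo : List ℕ :=
  [0, 2, 4, 14, 6, 0, 13, 9, 8, 7, 0, 11, 12, 1, 3, 0]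

/-- the near-orthogonal mate of the alternating group -/
def sqA (a b : alternatingGroup (Fin 4)) : alternatingGroup (Fin 4) :=
  elA.getD (tabAn.getD (16 * idA a + idA b) 0) 1

/-- the complete mapping -/
def thA (a : alternatingGroup (Fin 4)) : alternatingGroup (Fin 4) :=
  elA.getD (tabAo.getD (idA a) 0) 1

theorem orth_A : HasOrthogonalMate (alternatingGroup (Fin 4)) :=
  orth_of_map thA (by decide +kernel) (by decide +kernel)

theorem near_A : HasNearOrthogonalMate (alternatingGroup (Fin 4)) :=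
  near_of_table sqA (by decide +kernel) (by decide +kernel) (elA.getD 1 1)
    (elA.getD 4 1) (elA.getD 1 1) (elA.getD 4 1) (by decide +kernel)
    (by decide +kernel)

/-! ### Further tools -/

theorem orth_odd (G : Type*) [Group G] [Finite G] (h : Odd (Nat.card G)) : HasOrthogonalMate G := by
  refine ⟨fun a b => a * b⁻¹, ⟨fun r => ?_, fun c => ?_⟩, ?_⟩
  · exact (Group.mulLeft_bijective r).comp (Equiv.inv G).bijective
  · exact Group.mulRight_bijective c⁻¹
  · rintro ⟨a, b⟩ ⟨c, d⟩ e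
    simp only [Prod.mk.injEq] at e
    obtain ⟨e1, e2⟩ := e
    have e3 : b ^ 2 = d ^ 2 := by
      have : (a * b⁻¹)⁻¹ * (a * b) = (c * d⁻¹)⁻¹ * (c * d) := by rw [e1, e2]
      have x1 : (a * b⁻¹)⁻¹ * (a * b) = b ^ 2 := by rw [pow_two]; group
      have x2 : (c * d⁻¹)⁻¹ * (c * d) = d ^ 2 := by rw [pow_two]; group
      rw [← x1, ← x2, this]
    have hc : (Nat.card G).Coprime 2 := Nat.coprime_two_right.2 h
    have e4 : b = d := (powCoprime hc).injective e3
    subst e4
    rw [mul_right_cancel e1]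

theorem orth_congr {G H : Type*} [Group G] [Group H] (e : G ≃* H) (h : HasOrthogonalMate G) :
    HasOrthogonalMate H := by
  obtain ⟨M, ⟨h1, h2⟩, h3⟩ := h
  refine ⟨fun a b => e (M (e.symm a) (e.symm b)), ⟨fun r => ?_, fun c => ?_⟩, ?_⟩
  · exact e.bijective.comp ((h1 _).comp e.symm.bijective)
  · exact e.bijective.comp ((h2 _).comp e.symm.bijective)
  · rintro ⟨a, b⟩ ⟨c, d⟩ hh
    simp only [Prod.mk.injEq] at hh
    have := h3 (a₁ := (e.symm a, e.symm b)) (a₂ := (e.symm c, e.symm d)) (by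
      simp only [Prod.mk.injEq]
      exact ⟨by rw [← map_mul, ← map_mul, hh.1], e.injective hh.2⟩)
    simp only [Prod.mk.injEq] at this
    rw [e.symm.injective this.1, e.symm.injective this.2]

/-- **Result.** (1) If a finite group `G` has a normal subgroup `N` such that the Cayley tables of
`N` and of `G / N` have orthogonal mates, then the Cayley table of `G` has an orthogonal mate, and
it has a near-orthogonal mate if that of `N` has one.  (2) The same for direct products.  (3) The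
two non-abelian groups of order eight and the alternating group of degree four have near-orthogonal
mates (and orthogonal mates).  (4) A finite group has a near-orthogonal mate if it has a normal
subgroup isomorphic to one of these three groups whose index is odd or, more generally, whose
quotient has an orthogonal mate. -/
theorem result :
    (∀ (G : Type) [Group G] [Finite G] (N : Subgroup G) [N.Normal], HasOrthogonalMate N →
      HasOrthogonalMate (G ⧸ N) →
      HasOrthogonalMate G ∧ (HasNearOrthogonalMate N → HasNearOrthogonalMate G)) ∧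
    (∀ (G H : Type) [Group G] [Finite G] [Group H] [Finite H], HasOrthogonalMate G →
      HasNearOrthogonalMate G → HasOrthogonalMate H → HasNearOrthogonalMate (G × H)) ∧
    ((HasNearOrthogonalMate (DihedralGroup 4) ∧ HasOrthogonalMate (DihedralGroup 4)) ∧
      (HasNearOrthogonalMate (QuaternionGroup 2) ∧ HasOrthogonalMate (QuaternionGroup 2)) ∧
      HasNearOrthogonalMate (alternatingGroup (Fin 4)) ∧
        HasOrthogonalMate (alternatingGroup (Fin 4))) ∧
    ∀ (G : Type) [Group G] [Finite G] (N : Subgroup G) [N.Normal],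
      Nonempty (DihedralGroup 4 ≃* N) ∨ Nonempty (QuaternionGroup 2 ≃* N) ∨
        Nonempty (alternatingGroup (Fin 4) ≃* N) →
      Odd N.index ∨ HasOrthogonalMate (G ⧸ N) → HasNearOrthogonalMate G := by
  refine ⟨?_, ?_, ⟨⟨near_D, orth_D⟩, ⟨near_Q, orth_Q⟩, near_A, orth_A⟩, ?_⟩
  · intro G _ _ N _ h1 h2
    exact extension N N.subtype N.subtype_injective (fun g => ⟨fun h => ⟨⟨g, h⟩, rfl⟩,
      fun ⟨a, h⟩ => h ▸ a.2⟩) h1 h2
  · intro G H _ _ _ _ h1 h2 h3
    have hq : HasOrthogonalMate ((G × H) ⧸ (MonoidHom.snd G H).ker) :=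
      orth_congr (QuotientGroup.quotientKerEquivOfSurjective _ Prod.snd_surjective).symm h3
    refine (extension (MonoidHom.snd G H).ker (MonoidHom.inl G H)
      (fun a b h => (Prod.mk.injEq _ _ _ _ ▸ h : _ ∧ _).1) (fun g => ?_) h1 hq).2 h2
    rw [MonoidHom.mem_ker]
    constructor
    · intro h
      exact ⟨g.1, Prod.ext rfl h.symm⟩
    · rintro ⟨a, rfl⟩
      rfl
  · intro G _ _ N _ h hq
    have hq' : HasOrthogonalMate (G ⧸ N) := by
      rcases hq with hq | hq
      · exact orth_odd _ hq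
      · exact hq
    rcases h with ⟨⟨e⟩⟩ | ⟨⟨e⟩⟩ | ⟨⟨e⟩⟩
    · exact (extension N (N.subtype.comp e.toMonoidHom) (N.subtype_injective.comp e.injective)
        (fun g => ⟨fun h => ⟨e.symm ⟨g, h⟩, by simp⟩, fun ⟨a, h⟩ => h ▸ (e a).2⟩)
        orth_D hq').2 near_D
    · exact (extension N (N.subtype.comp e.toMonoidHom) (N.subtype_injective.comp e.injective)
        (fun g => ⟨fun h => ⟨e.symm ⟨g, h⟩, by simp⟩, fun ⟨a, h⟩ => h ▸ (e a).2⟩)
        orth_Q hq').2 near_Q
    · exact (extension N (N.subtype.comp e.toMonoidHom) (N.subtype_injective.comp e.injective)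
        (fun g => ⟨fun h => ⟨e.symm ⟨g, h⟩, by simp⟩, fun ⟨a, h⟩ => h ▸ (e a).2⟩)
        orth_A hq').2 near_A

end Pool.Agent.Results.MP_66fdf3_co.NormalSubgroups
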