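import Pool.Agent.Results.MP_66fdf3_co.NormalSubgroups
import Pool.Agent.Y49.NO.D8
import Pool.Agent.Y49.NO.Q16

set_option autoImplicit false

namespace Pool.Agent.Results.MP_66fdf3_co.SemidirectProducts

open Pool.Agent.Results.MP_66fdf3_co.CommutatorEven
open Pool.Agent.Results.MP_66fdf3_co.NormalSubgroups

/-! ### Block constructions from a subgroup which need not be normal -/

/-- A block structure on `G`: the subgroup `φ K`, representatives of its left and right cosets and
of classes of symbols, and a latin square `M` on the indices such that the blocks with equal value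
of `M` have disjoint sets of products. -/
structure Blocks (G K I : Type*) [Group G] [Group K] where
  /-- embedding of the subgroup -/
  φ : K →* G
  /-- representatives of the left cosets -/
  l : I → G
  /-- representatives of the right cosets -/
  r : I → G
  /-- the latin square on the indices -/
  M : I → I → I
  /-- index of the subgroup itself -/
  o : I
  /-- left decomposition -/
  eL : I × K ≃ G
  /-- right decomposition -/
  eR : I × K ≃ G
  hL : ∀ x a, eL (x, a) = l x * φ a
  hR : ∀ x a, eR (x, a) = φ a * r x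
  lo : l o = 1
  ro : r o = 1
  Mo : M o o = o
  M1 : ∀ x, Function.Bijective (M x)
  M2 : ∀ y, Function.Bijective fun x => M x y
  inj : ∀ x y a x' y' a', l x * φ a * r y = l x' * φ a' * r y' → M x y = M x' y' →
    x = x' ∧ y = y' ∧ a = a'

namespace Blocks

variable {G K I : Type*} [Group G] [Group K] (B : Blocks G K I) (m : I → I → K → K → K)

/-- The mate. -/
def L (g h : G) : G :=
  B.eL (B.M (B.eL.symm g).1 (B.eR.symm h).1,
    m (B.eL.symm g).1 (B.eR.symm h).1 (B.eL.symm g).2 (B.eR.symm h).2)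

theorem L_apply (x y : I) (a b : K) :
    B.L m (B.eL (x, a)) (B.eR (y, b)) = B.eL (B.M x y, m x y a b) := by
  unfold L
  simp only [Equiv.symm_apply_apply]

theorem mul_apply (x y : I) (a b : K) :
    B.eL (x, a) * B.eR (y, b) = B.l x * B.φ (a * b) * B.r y := by
  rw [B.hL, B.hR, map_mul]; group

theorem latin (latm : ∀ x y, IsLatin (m x y)) : IsLatin (B.L m) := by
  constructor
  · intro g
    obtain ⟨⟨x, a⟩, rfl⟩ := B.eL.surjective g
    constructor
    · intro h h' e
      obtain ⟨⟨y, b⟩, rfl⟩ := B.eR.surjective h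
      obtain ⟨⟨y', b'⟩, rfl⟩ := B.eR.surjective h'
      rw [B.L_apply, B.L_apply] at e
      have e1 := B.eL.injective e
      simp only [Prod.mk.injEq] at e1
      have e2 := (B.M1 x).1 e1.1
      subst e2
      rw [((latm x y).1 a).1 e1.2]
    · intro s
      obtain ⟨⟨z, c⟩, rfl⟩ := B.eL.surjective s
      obtain ⟨y, rfl⟩ := (B.M1 x).2 z
      obtain ⟨b, rfl⟩ := ((latm x y).1 a).2 c
      exact ⟨B.eR (y, b), B.L_apply m x y a b⟩
  · intro h
    obtain ⟨⟨y, b⟩, rfl⟩ := B.eR.surjective h
    constructor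
    · intro g g' e
      obtain ⟨⟨x, a⟩, rfl⟩ := B.eL.surjective g
      obtain ⟨⟨x', a'⟩, rfl⟩ := B.eL.surjective g'
      change B.L m _ _ = B.L m _ _ at e
      rw [B.L_apply, B.L_apply] at e
      have e1 := B.eL.injective e
      simp only [Prod.mk.injEq] at e1
      have e2 := (B.M2 y).1 e1.1
      subst e2
      rw [((latm x y).2 b).1 e1.2]
    · intro s
      obtain ⟨⟨z, c⟩, rfl⟩ := B.eL.surjective s
      obtain ⟨x, rfl⟩ := (B.M2 y).2 z
      obtain ⟨a, rfl⟩ := ((latm x y).2 b).2 c
      exact ⟨B.eL (x, a), B.L_apply m x y a b⟩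

theorem orth (h : ∀ x y, Function.Injective fun p : K × K => (p.1 * p.2, m x y p.1 p.2)) :
    Function.Injective fun p : G × G => (p.1 * p.2, B.L m p.1 p.2) := by
  rintro ⟨g, k⟩ ⟨g', k'⟩ e
  obtain ⟨⟨x, a⟩, rfl⟩ := B.eL.surjective g
  obtain ⟨⟨x', a'⟩, rfl⟩ := B.eL.surjective g'
  obtain ⟨⟨y, b⟩, rfl⟩ := B.eR.surjective k
  obtain ⟨⟨y', b'⟩, rfl⟩ := B.eR.surjective k'
  simp only [Prod.mk.injEq] at e
  obtain ⟨e1, e2⟩ := e
  rw [B.mul_apply, B.mul_apply] at e1
  rw [B.L_apply, B.L_apply] at e2
  have e3 := B.eL.injective e2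
  simp only [Prod.mk.injEq] at e3
  obtain ⟨rfl, rfl, e4⟩ := B.inj _ _ _ _ _ _ e1 e3.1
  have e5 := h x y (a₁ := (a, b)) (a₂ := (a', b')) (by simp only [e4, e3.2])
  simp only [Prod.mk.injEq] at e5
  rw [e5.1, e5.2]

/-- The missing pairs of the superposition. -/
theorem compl_range [Finite G] [Finite K] [Finite I]
    (h : ∀ x y, ¬(x = B.o ∧ y = B.o) →
      Function.Injective fun p : K × K => (p.1 * p.2, m x y p.1 p.2)) :
    (Set.range fun p : G × G => (p.1 * p.2, B.L m p.1 p.2))ᶜ =
      (fun p : K × K => (B.φ p.1, B.φ p.2)) ''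
        (Set.range fun p : K × K => (p.1 * p.2, m B.o B.o p.1 p.2))ᶜ := by
  have hcard : Nat.card ((I × I) × K) = Nat.card (G × I) := by
    rw [Nat.card_prod, Nat.card_prod, Nat.card_prod, ← Nat.card_congr B.eL, Nat.card_prod]
    ring
  -- every pair of an element and an index comes from a block
  have hsurj : ∀ (u : G) (z : I), ∃ x y n, B.l x * B.φ n * B.r y = u ∧ B.M x y = z := by
    have hinj : Function.Injective fun p : (I × I) × K =>
        (B.l p.1.1 * B.φ p.2 * B.r p.1.2, B.M p.1.1 p.1.2) := by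
      rintro ⟨⟨x, y⟩, a⟩ ⟨⟨x', y'⟩, a'⟩ e
      simp only [Prod.mk.injEq] at e
      obtain ⟨rfl, rfl, rfl⟩ := B.inj _ _ _ _ _ _ e.1 e.2
      rfl
    have hb := (Nat.bijective_iff_injective_and_card _).2 ⟨hinj, hcard⟩
    intro u z
    obtain ⟨⟨⟨x, y⟩, n⟩, e⟩ := hb.2 (u, z)
    simp only [Prod.mk.injEq] at e
    exact ⟨x, y, n, e⟩
  ext ⟨u, v⟩
  simp only [Set.mem_compl_iff, Set.mem_range, Set.mem_image, Prod.mk.injEq, Prod.exists,
    not_exists, not_and]
  constructor
  · intro hn
    obtain ⟨⟨z, n₂⟩, rfl⟩ := B.eL.surjective v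
    obtain ⟨x, y, n₁, rfl, rfl⟩ := hsurj u z
    have key : ∀ a b, a * b = n₁ → m x y a b ≠ n₂ := by
      intro a b h1 h2
      refine hn (B.eL (x, a)) (B.eR (y, b)) ?_ ?_
      · rw [B.mul_apply, h1]
      · rw [B.L_apply, h2]
    have hxy : x = B.o ∧ y = B.o := by
      by_contra hc
      obtain ⟨⟨a, b⟩, hab⟩ := (Finite.injective_iff_surjective.1 (h x y hc)) (n₁, n₂)
      simp only [Prod.mk.injEq] at hab
      exact key a b hab.1 hab.2
    obtain ⟨rfl, rfl⟩ := hxy
    refine ⟨n₁, n₂, key, ?_, ?_⟩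
    · rw [B.lo, B.ro, one_mul, mul_one]
    · rw [B.Mo, B.hL, B.lo, one_mul]
  · rintro ⟨n₁, n₂, hn, rfl, rfl⟩ g k h1 h2
    obtain ⟨⟨x, a⟩, rfl⟩ := B.eL.surjective g
    obtain ⟨⟨y, b⟩, rfl⟩ := B.eR.surjective k
    rw [B.mul_apply] at h1
    have h3 : B.φ n₂ = B.eL (B.o, n₂) := by rw [B.hL, B.lo, one_mul]
    rw [B.L_apply, h3] at h2
    have h4 := B.eL.injective h2
    simp only [Prod.mk.injEq] at h4
    have h5 : B.l x * B.φ (a * b) * B.r y = B.l B.o * B.φ n₁ * B.r B.o := by
      rw [h1, B.lo, B.ro, one_mul, mul_one]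
    obtain ⟨rfl, rfl, h6⟩ := B.inj _ _ _ _ _ _ h5 (by rw [h4.1, B.Mo])
    exact hn _ _ h6 h4.2

theorem φ_inj : Function.Injective B.φ := by
  intro a b h
  have : B.eL (B.o, a) = B.eL (B.o, b) := by rw [B.hL, B.hL, h]
  have := B.eL.injective this
  simp only [Prod.mk.injEq, true_and] at this
  exact this

theorem hasOrth (B : Blocks G K I) (h : HasOrthogonalMate K) : HasOrthogonalMate G := by
  obtain ⟨m, latm, orthm⟩ := h
  exact ⟨B.L fun _ _ => m, B.latin _ fun _ _ => latm, B.orth _ fun _ _ => orthm⟩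

theorem hasNear (B : Blocks G K I) [Finite G] [Finite K] [Finite I] (hK : HasOrthogonalMate K)
    (hK' : HasNearOrthogonalMate K) : HasNearOrthogonalMate G := by
  classical
  obtain ⟨m, latm, orthm⟩ := hK
  obtain ⟨m', latm', ⟨r₁, r₂, c₁, c₂, ⟨hr, hc, i1, i2⟩, ⟨-, -, j1, j2⟩, hs⟩, hcard⟩ := hK'
  let mm : I → I → K → K → K := fun x y => if x = B.o ∧ y = B.o then m' else m
  have mm1 : mm B.o B.o = m' := if_pos ⟨rfl, rfl⟩
  have latmm : ∀ x y, IsLatin (mm x y) := by
    intro x y
    simp only [mm]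
    split_ifs
    · exact latm'
    · exact latm
  have inj := B.φ_inj
  have hL : ∀ a b, B.L mm (B.φ a) (B.φ b) = B.φ (m' a b) := by
    intro a b
    have h1 : B.φ a = B.eL (B.o, a) := by rw [B.hL, B.lo, one_mul]
    have h2 : B.φ b = B.eR (B.o, b) := by rw [B.hR, B.ro, mul_one]
    rw [h1, h2, B.L_apply, B.Mo, B.hL, B.lo, one_mul, mm1]
  refine ⟨B.L mm, B.latin _ latmm, ⟨B.φ r₁, B.φ r₂, B.φ c₁, B.φ c₂,
    ⟨inj.ne hr, inj.ne hc, ?_, ?_⟩, ⟨inj.ne hr, inj.ne hc, ?_, ?_⟩, ?_⟩, ?_⟩
  · simp only at i1 ⊢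
    rw [← map_mul, ← map_mul, i1]
  · simp only at i2 ⊢
    rw [← map_mul, ← map_mul, i2]
  · rw [hL, hL, j1]
  · rw [hL, hL, j2]
  · have hs' := congrArg (Set.image B.φ) hs
    simp only [Set.image_pair, map_mul] at hs'
    simp only [hL]
    exact hs'
  · have hN : Nontrivial K := ⟨r₁, r₂, hr⟩
    have hK2 : 2 ≤ Nat.card K := Finite.one_lt_card
    have h1 := B.compl_range mm (fun x y hxy => by
      simp only [mm, if_neg hxy]
      exact orthm)
    have h2 : (Set.range fun p : K × K => (p.1 * p.2, m' p.1 p.2))ᶜ.ncard = 2 := by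
      rw [Set.ncard_compl, hcard, Nat.card_prod]
      have : 2 ≤ Nat.card K ^ 2 := by nlinarith
      rw [← pow_two]
      omega
    have h3 : ((Set.range fun p : G × G => (p.1 * p.2, B.L mm p.1 p.2))ᶜ).ncard = 2 := by
      rw [h1, mm1, Set.ncard_image_of_injective _ (fun p q h => ?_), h2]
      simp only [Prod.mk.injEq] at h
      exact Prod.ext (inj h.1) (inj h.2)
    have h4 := Set.ncard_add_ncard_compl (Set.range fun p : G × G => (p.1 * p.2, B.L mm p.1 p.2))
    rw [h3, Nat.card_prod, ← pow_two] at h4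
    change (Set.range fun p : G × G => (p.1 * p.2, B.L mm p.1 p.2)).ncard = _
    omega

end Blocks

/-! ### Semidirect products -/

theorem pow_lemma {A H : Type*} [CommGroup A] [Group H] (θ : H →* MulAut A) (h : H) (p : A)
    (hp : p = (θ h p) ^ 2) : ∀ i : ℕ, p = (θ (h ^ i) p) ^ 2 ^ i := by
  intro i
  induction i with
  | zero => simp
  | succ i ih =>
    have h1 : θ (h ^ (i + 1)) p = θ (h ^ i) (θ h p) := by
      rw [pow_succ, map_mul]; rfl
    rw [h1, pow_succ 2 i, mul_comm (2 ^ i) 2, pow_mul, ← map_pow (θ (h ^ i)) (θ h p) 2, ← hp]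
    exact ih

open SemidirectProduct in
/-- The blocks of a semidirect product. -/
noncomputable def sdBlocks {A H : Type*} [CommGroup A] [Finite A] [Group H] (θ : H →* MulAut A)
    (e : ℕ) (hodd : Odd (Nat.card A)) (he : ∀ h, θ (h ^ e) = 1)
    (hc : (Nat.card A).Coprime (2 ^ e - 1)) : Blocks (A ⋊[θ] H) H A where
  φ := inr
  l := fun x => inl x
  r := fun x => inl x
  M := fun x y => x ^ 2 * y
  o := 1
  eL := ⟨fun p => inl p.1 * inr p.2, fun g => (g.left, g.right), fun p => by ext <;> simp,
    fun g => by ext <;> simp⟩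
  eR := ⟨fun p => inr p.2 * inl p.1, fun g => ((θ g.right)⁻¹ g.left, g.right),
    fun p => by ext <;> simp, fun g => by ext <;> simp⟩
  hL := fun _ _ => rfl
  hR := fun _ _ => rfl
  lo := map_one _
  ro := map_one _
  Mo := by simp
  M1 := fun x => Group.mulLeft_bijective _
  M2 := fun y => by
    have hc2 : (Nat.card A).Coprime 2 := Nat.coprime_two_right.2 hodd
    exact (Group.mulRight_bijective y).comp (powCoprime hc2).bijective
  inj := by
    intro x y a x' y' a' h1 h2
    have e1 : a = a' := by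
      have := congrArg SemidirectProduct.right h1
      simpa using this
    subst e1
    have e2 : x * θ a y = x' * θ a y' := by
      have := congrArg SemidirectProduct.left h1
      simpa using this
    have e3 : x / x' = (θ a (x / x')) ^ 2 := by
      have q1 : y' / y = (x / x') ^ 2 := by
        rw [div_pow, div_eq_div_iff_mul_eq_mul]
        rw [mul_comm y' (x' ^ 2), ← h2]
      have q2 : x / x' = θ a (y' / y) := by
        rw [map_div, div_eq_div_iff_mul_eq_mul, e2, mul_comm]
      rw [← map_pow, ← q1, ← q2]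
    have e4 := pow_lemma θ a _ e3 e
    rw [he, MulAut.one_apply] at e4
    have e5 : (x / x') ^ (2 ^ e - 1) = 1 := by
      have h5 : (x / x') ^ (2 ^ e - 1) * (x / x') = 1 * (x / x') := by
        rw [← pow_succ, Nat.sub_add_cancel Nat.one_le_two_pow, one_mul]
        exact e4.symm
      exact mul_right_cancel h5
    have e6 : x / x' = 1 := by
      have := (powCoprime hc).injective (a₁ := x / x') (a₂ := 1) (by
        simp only [powCoprime_apply, one_pow]; exact e5)
      exact this
    have e7 : x = x' := div_eq_one.1 e6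
    subst e7
    refine ⟨rfl, ?_, rfl⟩
    exact mul_left_cancel h2

theorem finite_sd {A H : Type*} [Group A] [Finite A] [Group H] [Finite H] (θ : H →* MulAut A) :
    Finite (A ⋊[θ] H) :=
  Finite.of_equiv _ (SemidirectProduct.equivProd (φ := θ)).symm

/-- Near-orthogonal mates of semidirect products. -/
theorem sd {A H : Type*} [CommGroup A] [Finite A] [Group H] [Finite H] (θ : H →* MulAut A)
    (e : ℕ) (hodd : Odd (Nat.card A)) (hc : (Nat.card A).Coprime (2 ^ e - 1))
    (he : ∀ h, θ (h ^ e) = 1) (h1 : HasOrthogonalMate H) :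
    HasOrthogonalMate (A ⋊[θ] H) ∧ (HasNearOrthogonalMate H → HasNearOrthogonalMate (A ⋊[θ] H)) := by
  have := finite_sd θ
  exact ⟨(sdBlocks θ e hodd he hc).hasOrth h1, fun h2 => (sdBlocks θ e hodd he hc).hasNear h1 h2⟩

theorem near_congr {G K : Type*} [Group G] [Finite G] [Group K] [Finite K] (e : K ≃* G)
    (h1 : HasOrthogonalMate K) (h2 : HasNearOrthogonalMate K) : HasNearOrthogonalMate G := by
  have hq : HasOrthogonalMate (G ⧸ (⊤ : Subgroup G)) := by
    refine orth_odd _ ?_
    have : Nat.card (G ⧸ (⊤ : Subgroup G)) = 1 := Subgroup.index_top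
    rw [this]
    exact odd_one
  exact (extension (⊤ : Subgroup G) e.toMonoidHom e.injective (fun g => ⟨fun _ => ⟨e.symm g, by
    simp⟩, fun _ => Subgroup.mem_top g⟩) h1 hq).2 h2

/-! ### Dihedral and generalised quaternion groups -/

/-- Inversion action of a dihedral group. -/
def thD (n : ℕ) (A : Type*) [CommGroup A] : DihedralGroup n →* MulAut A where
  toFun
    | .r _ => 1
    | .sr _ => MulEquiv.inv A
  map_one' := rfl
  map_mul' := by
    rintro (i | i) (j | j)
    · rfl
    · rfl
    · rfl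
    · ext a
      exact (inv_inv a).symm

theorem thD_sq (n : ℕ) (A : Type*) [CommGroup A] (h : DihedralGroup n) : thD n A (h ^ 2) = 1 := by
  rw [map_pow, pow_two]
  rcases h with i | i
  · rfl
  · ext a
    exact inv_inv a

/-- The dihedral group of order `2 n k`, `k` coprime to `n`, as a semidirect product. -/
noncomputable def isoD (n k : ℕ) (hk : Nat.Coprime n k) :
    (Multiplicative (ZMod k) ⋊[thD n (Multiplicative (ZMod k))] DihedralGroup n) ≃*
      DihedralGroup (n * k) where
  toFun g := match g with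
    | ⟨a, .r x⟩ => .r ((ZMod.chineseRemainder hk).symm (x, a.toAdd))
    | ⟨a, .sr x⟩ => .sr ((ZMod.chineseRemainder hk).symm (x, -a.toAdd))
  invFun g := match g with
    | .r i => ⟨Multiplicative.ofAdd ((ZMod.chineseRemainder hk) i).2,
        .r ((ZMod.chineseRemainder hk) i).1⟩
    | .sr i => ⟨Multiplicative.ofAdd (-((ZMod.chineseRemainder hk) i).2),
        .sr ((ZMod.chineseRemainder hk) i).1⟩
  left_inv := by
    rintro ⟨a, x | x⟩
    · simp
    · simp
  right_inv := by
    rintro (i | i)
    · simp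
    · simp
  map_mul' := by
    rintro ⟨a, x | x⟩ ⟨b, y | y⟩
    · change DihedralGroup.r _ = DihedralGroup.r _
      congr 1
      rw [← map_add]
      rfl
    · change DihedralGroup.sr _ = DihedralGroup.sr _
      congr 1
      rw [← map_sub]
      congr 1
      refine Prod.ext rfl ?_
      change -(a.toAdd + b.toAdd) = -b.toAdd - a.toAdd
      ring
    · change DihedralGroup.sr _ = DihedralGroup.sr _
      congr 1
      rw [← map_add]
      congr 1
      refine Prod.ext rfl ?_
      change -(a.toAdd + -b.toAdd) = -a.toAdd + b.toAdd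
      ring
    · change DihedralGroup.r _ = DihedralGroup.r _
      congr 1
      rw [← map_sub]
      congr 1
      refine Prod.ext rfl ?_
      change a.toAdd + -b.toAdd = -b.toAdd - -a.toAdd
      ring

/-- Inversion action of a generalised quaternion group. -/
def thQ (n : ℕ) (A : Type*) [CommGroup A] : QuaternionGroup n →* MulAut A where
  toFun
    | .a _ => 1
    | .xa _ => MulEquiv.inv A
  map_one' := rfl
  map_mul' := by
    rintro (i | i) (j | j)
    · rfl
    · rfl
    · rfl
    · ext a
      exact (inv_inv a).symm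

theorem thQ_sq (n : ℕ) (A : Type*) [CommGroup A] (h : QuaternionGroup n) : thQ n A (h ^ 2) = 1 := by
  rw [map_pow, pow_two]
  rcases h with i | i
  · rfl
  · ext a
    exact inv_inv a

/-- Chinese remainder theorem for `2 n` and `k`. -/
noncomputable def crQ (n k : ℕ) (hk : Nat.Coprime (2 * n) k) :
    ZMod (2 * (n * k)) ≃+* ZMod (2 * n) × ZMod k :=
  (ZMod.ringEquivCongr (by ring)).trans (ZMod.chineseRemainder hk)

theorem crQ_n (n k : ℕ) (hk : Nat.Coprime (2 * n) k) :
    (crQ n k hk).symm ((n : ZMod (2 * n)), 0) = ((n * k : ℕ) : ZMod (2 * (n * k))) := by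
  rw [RingEquiv.symm_apply_eq, map_natCast]
  obtain ⟨t, ht⟩ : Odd k := Nat.coprime_two_left.1 (Nat.Coprime.coprime_dvd_left ⟨n, rfl⟩ hk)
  refine Prod.ext ?_ ?_
  · change (n : ZMod (2 * n)) = ((n * k : ℕ) : ZMod (2 * n) × ZMod k).1
    rw [Prod.fst_natCast, ht]
    have h0 : ((2 * n : ℕ) : ZMod (2 * n)) = 0 := ZMod.natCast_self _
    have : n * (2 * t + 1) = n + (2 * n) * t := by ring
    rw [this, Nat.cast_add, Nat.cast_mul (2 * n) t, h0, zero_mul, add_zero]
  · change (0 : ZMod k) = ((n * k : ℕ) : ZMod (2 * n) × ZMod k).2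
    rw [Prod.snd_natCast, Nat.cast_mul, ZMod.natCast_self, mul_zero]

/-- The generalised quaternion group of order `4 n k`, `k` coprime to `2 n`, as a semidirect
product. -/
noncomputable def isoQ (n k : ℕ) (hk : Nat.Coprime (2 * n) k) :
    (Multiplicative (ZMod k) ⋊[thQ n (Multiplicative (ZMod k))] QuaternionGroup n) ≃*
      QuaternionGroup (n * k) where
  toFun g := match g with
    | ⟨a, .a x⟩ => .a ((crQ n k hk).symm (x, a.toAdd))
    | ⟨a, .xa x⟩ => .xa ((crQ n k hk).symm (x, -a.toAdd))
  invFun g := match g with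
    | .a i => ⟨Multiplicative.ofAdd (crQ n k hk i).2, .a (crQ n k hk i).1⟩
    | .xa i => ⟨Multiplicative.ofAdd (-(crQ n k hk i).2), .xa (crQ n k hk i).1⟩
  left_inv := by
    rintro ⟨a, x | x⟩
    · simp
    · simp
  right_inv := by
    rintro (i | i)
    · simp
    · simp
  map_mul' := by
    rintro ⟨a, x | x⟩ ⟨b, y | y⟩
    · change QuaternionGroup.a _ = QuaternionGroup.a _
      congr 1
      rw [← map_add]
      rfl
    · change QuaternionGroup.xa _ = QuaternionGroup.xa _
      congr 1
      rw [← map_sub]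
      congr 1
      refine Prod.ext rfl ?_
      change -(a.toAdd + b.toAdd) = -b.toAdd - a.toAdd
      ring
    · change QuaternionGroup.xa _ = QuaternionGroup.xa _
      congr 1
      rw [← map_add]
      congr 1
      refine Prod.ext rfl ?_
      change -(a.toAdd + -b.toAdd) = -a.toAdd + b.toAdd
      ring
    · change QuaternionGroup.a _ = QuaternionGroup.a (((n * k : ℕ) : ZMod (2 * (n * k))) + _ - _)
      congr 1
      rw [← crQ_n n k hk, ← map_add, ← map_sub]
      congr 1
      refine Prod.ext rfl ?_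
      change a.toAdd + -b.toAdd = 0 + -b.toAdd - -a.toAdd
      ring

theorem card_mul (k : ℕ) : Nat.card (Multiplicative (ZMod k)) = k := by
  rw [Nat.card_congr Multiplicative.toAdd, Nat.card_zmod]

theorem near_dihedral (n k : ℕ) [NeZero n] (hk : k.Coprime 6) (hn : k.Coprime n)
    (h1 : HasOrthogonalMate (DihedralGroup n)) (h2 : HasNearOrthogonalMate (DihedralGroup n)) :
    HasNearOrthogonalMate (DihedralGroup (n * k)) := by
  have hk2 : k.Coprime 2 := hk.coprime_dvd_right (by norm_num)
  have hk3 : k.Coprime 3 := hk.coprime_dvd_right (by norm_num)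
  have hk0 : NeZero k := ⟨by
    rintro rfl
    norm_num at hk⟩
  have hfin : Finite (Multiplicative (ZMod k)) := inferInstanceAs (Finite (ZMod k))
  have := finite_sd (thD n (Multiplicative (ZMod k)))
  have h := sd (thD n (Multiplicative (ZMod k))) 2
    (by rw [card_mul]; exact Nat.coprime_two_right.1 hk2) (by rw [card_mul]; exact hk3)
    (thD_sq n _) h1
  exact near_congr (isoD n k hn.symm) h.1 (h.2 h2)

theorem near_quaternion (n k : ℕ) [NeZero n] (hk : k.Coprime 6) (hn : k.Coprime n)
    (h1 : HasOrthogonalMate (QuaternionGroup n)) (h2 : HasNearOrthogonalMate (QuaternionGroup n)) :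
    HasNearOrthogonalMate (QuaternionGroup (n * k)) := by
  have hk2 : k.Coprime 2 := hk.coprime_dvd_right (by norm_num)
  have hk3 : k.Coprime 3 := hk.coprime_dvd_right (by norm_num)
  have hk0 : NeZero k := ⟨by
    rintro rfl
    norm_num at hk⟩
  have hfin : Finite (Multiplicative (ZMod k)) := inferInstanceAs (Finite (ZMod k))
  have := finite_sd (thQ n (Multiplicative (ZMod k)))
  have h := sd (thQ n (Multiplicative (ZMod k))) 2
    (by rw [card_mul]; exact Nat.coprime_two_right.1 hk2) (by rw [card_mul]; exact hk3)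
    (thQ_sq n _) h1
  exact near_congr (isoQ n k (Nat.Coprime.mul_left hk2.symm hn.symm)) h.1 (h.2 h2)

theorem cop {k : ℕ} (h : k.Coprime 6) : k.Coprime 2 ∧ k.Coprime 4 ∧ k.Coprime 8 := by
  have h2 : k.Coprime 2 := h.coprime_dvd_right (by norm_num)
  exact ⟨h2, (h2.pow_right 2 : k.Coprime (2 ^ 2)), (h2.pow_right 3 : k.Coprime (2 ^ 3))⟩

/-- **Result.** (1) Let the finite group `H` act on the finite commutative group `A` of odd order in
such a way that `h ^ e` acts trivially for all `h` in `H`, where the order of `A` is coprime to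
`2 ^ e - 1`.  If `H` has an orthogonal mate, then so has `A ⋊ H`, and if `H` has also a
near-orthogonal mate, then so has `A ⋊ H`.  (2) All semidirect products of a commutative group of
order coprime to `30` by a non-abelian group of order eight, and of a commutative group of order
coprime to `42` by the alternating group of degree four, have near-orthogonal mates.  (3) The
dihedral groups of order `8 k` and `16 k` and the generalised quaternion groups of order `8 k` and
`16 k` have near-orthogonal mates for every `k` coprime to `6`. -/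
theorem result :
    (∀ (A H : Type) [CommGroup A] [Finite A] [Group H] [Finite H] (θ : H →* MulAut A) (e : ℕ),
      Odd (Nat.card A) → (Nat.card A).Coprime (2 ^ e - 1) → (∀ h, θ (h ^ e) = 1) →
      HasOrthogonalMate H →
      HasOrthogonalMate (A ⋊[θ] H) ∧
        (HasNearOrthogonalMate H → HasNearOrthogonalMate (A ⋊[θ] H))) ∧
    ((∀ (A : Type) [CommGroup A] [Finite A] (θ : DihedralGroup 4 →* MulAut A),
        (Nat.card A).Coprime 30 → HasNearOrthogonalMate (A ⋊[θ] DihedralGroup 4)) ∧
      (∀ (A : Type) [CommGroup A] [Finite A] (θ : QuaternionGroup 2 →* MulAut A),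
        (Nat.card A).Coprime 30 → HasNearOrthogonalMate (A ⋊[θ] QuaternionGroup 2)) ∧
      ∀ (A : Type) [CommGroup A] [Finite A] (θ : alternatingGroup (Fin 4) →* MulAut A),
        (Nat.card A).Coprime 42 → HasNearOrthogonalMate (A ⋊[θ] alternatingGroup (Fin 4))) ∧
    ∀ k : ℕ, k.Coprime 6 →
      HasNearOrthogonalMate (DihedralGroup (4 * k)) ∧
      HasNearOrthogonalMate (QuaternionGroup (2 * k)) ∧
      HasNearOrthogonalMate (DihedralGroup (8 * k)) ∧
      HasNearOrthogonalMate (QuaternionGroup (4 * k)) := by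
  refine ⟨fun A H _ _ _ _ θ e h1 h2 h3 h4 => sd θ e h1 h2 h3 h4, ⟨?_, ?_, ?_⟩, fun k hk => ?_⟩
  · intro A _ _ θ hA
    refine (sd θ 4 (Nat.coprime_two_right.1 (hA.coprime_dvd_right (by norm_num)))
      (hA.coprime_dvd_right (by norm_num)) (fun h => ?_) orth_D).2 near_D
    have : ∀ h : DihedralGroup 4, h ^ 4 = 1 := by decide +kernel
    rw [this, map_one]
  · intro A _ _ θ hA
    refine (sd θ 4 (Nat.coprime_two_right.1 (hA.coprime_dvd_right (by norm_num)))
      (hA.coprime_dvd_right (by norm_num)) (fun h => ?_) orth_Q).2 near_Q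
    have : ∀ h : QuaternionGroup 2, h ^ 4 = 1 := by decide +kernel
    rw [this, map_one]
  · intro A _ _ θ hA
    have hodd : Odd (Nat.card A) := Nat.coprime_two_right.1 (hA.coprime_dvd_right (by norm_num))
    have h63 : (Nat.card A).Coprime (2 ^ 6 - 1) := by
      have h3 : (Nat.card A).Coprime 3 := hA.coprime_dvd_right (by norm_num)
      have h7 : (Nat.card A).Coprime 7 := hA.coprime_dvd_right (by norm_num)
      have : (2 ^ 6 - 1 : ℕ) = 3 * 3 * 7 := by norm_num
      rw [this]
      exact (h3.mul_right h3).mul_right h7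
    refine (sd θ 6 hodd h63 (fun h => ?_) orth_A).2 near_A
    have : ∀ h : alternatingGroup (Fin 4), h ^ 6 = 1 := by decide +kernel
    rw [this, map_one]
  · obtain ⟨h2, h4, h8⟩ := cop hk
    exact ⟨near_dihedral 4 k hk h4 orth_D near_D, near_quaternion 2 k hk h2 orth_Q near_Q,
      near_dihedral 8 k hk h8 Y49.NO.D8.orth_E Y49.NO.D8.near_E,
      near_quaternion 4 k hk h4 Y49.NO.Q16.orth_F Y49.NO.Q16.near_F⟩

end Pool.Agent.Results.MP_66fdf3_co.SemidirectProducts
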